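import Mathlib
import Pool.Agent.Helper93.ETC.Main

open UpperHalfPlane MatrixGroups Matrix Topology Matrix.ProjGenLinGroup
open Pool.Agent.Helper93.ETC

namespace Pool.Agent.Results.MP_f308f8_gt.EffectiveTCEqFour

/-- Let `Γ` be a fixed point free, properly discontinuous group of isometries of the hyperbolic
plane, containing an orientation reversing element, and let `X = ℍ / Γ⁺` be compact, where `Γ⁺` is
the subgroup of orientation preserving elements, with the action of the group of order two induced
by `Γ`. Then the effective topological complexity of this action is exactly four. -/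
theorem result (Γ : Subgroup PGL(2, ℝ)) (hfree : ∀ γ ∈ Γ, ∀ z : ℍ, γ • z = z → γ = 1)
    [ProperlyDiscontinuousSMul Γ ℍ] (hor : ∃ γ ∈ Γ, signDet γ ≠ 1)
    (X : Type) [TopologicalSpace X] [CompactSpace X] [MulAction SignTypeˣ X]
    (π : ℍ → X) (hπ : IsQuotientMap π)
    (hfib : ∀ z w : ℍ, π z = π w ↔ ∃ γ ∈ Γ, signDet γ = 1 ∧ γ • z = w)
    (hact : ∀ γ ∈ Γ, ∀ z : ℍ, signDet γ • π z = π (γ • z)) :
    IsLeast {k | SecatLe (endpoints SignTypeˣ X) k} 4 :=
  main Γ hfree hor X π hπ hfib hact

end Pool.Agent.Results.MP_f308f8_gt.EffectiveTCEqFour
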